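import Mathlib

/-!
# Double covers of the alternating groups: lifts of involutions
-/

set_option autoImplicit false
set_option linter.unusedSectionVars false
set_option linter.unusedSimpArgs false

namespace Pool.Agent.X21.Sp

open Equiv Equiv.Perm

variable {α : Type} [Fintype α] [DecidableEq α]

/-- `a, b, c, d` are distinct -/
def Dist4 (a b c d : α) : Prop := a ≠ b ∧ a ≠ c ∧ a ≠ d ∧ b ≠ c ∧ b ≠ d ∧ c ≠ d

/-- products of two disjoint transpositions -/
def IsDT (σ : Perm α) : Prop := ∃ a b c d : α, Dist4 a b c d ∧ σ = swap a b * swap c d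

/-- products of `q` disjoint products of two disjoint transpositions -/
inductive Dbl : ℕ → Perm α → Prop
  | one : Dbl 0 1
  | step {q : ℕ} {v : Perm α} (a b c d : α) (h : Dist4 a b c d) (hv : Dbl q v)
      (ha : v a = a) (hb : v b = b) (hc : v c = c) (hd : v d = d) :
      Dbl (q + 1) (swap a b * swap c d * v)

/-- `Γ` is a double cover of the alternating group, or of the symmetric group, on `α`, with kernel
generated by the central element `z`, in which the products of two disjoint transpositions lift to
elements of order four. -/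
structure IsSpin {Γ : Type} [Group Γ] (π : Γ →* Perm α) (z : Γ) : Prop where
  central : ∀ g : Γ, g * z = z * g
  ne : z ≠ 1
  sq : z * z = 1
  ker : ∀ g : Γ, π g = 1 ↔ g = 1 ∨ g = z
  surj : ∀ σ : Perm α, Perm.sign σ = 1 → ∃ g : Γ, π g = σ
  dt : ∀ g : Γ, IsDT (π g) → g * g = z

lemma Dbl.sign {q : ℕ} {v : Perm α} (h : Dbl q v) : Perm.sign v = 1 := by
  induction h with
  | one => exact map_one _
  | step a b c d h hv ha hb hc hd ih =>
    rw [map_mul, map_mul, sign_swap h.1, sign_swap h.2.2.2.2.2, ih]
    decide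

lemma isDT_sign {σ : Perm α} (h : IsDT σ) : Perm.sign σ = 1 := by
  obtain ⟨a, b, c, d, h, rfl⟩ := h
  rw [map_mul, sign_swap h.1, sign_swap h.2.2.2.2.2]
  decide

lemma comm_swap {v : Perm α} {a b : α} (ha : v a = a) (hb : v b = b) :
    v * swap a b = swap a b * v := by
  rw [Equiv.mul_swap_eq_swap_mul, ha, hb]

lemma klein {a b c d : α} (h : Dist4 a b c d) :
    (swap a b * swap c d) * (swap a c * swap b d) = swap a d * swap b c := by
  obtain ⟨h1, h2, h3, h4, h5, h6⟩ := h
  ext x
  simp only [Perm.mul_apply]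
  by_cases xa : x = a
  · subst xa
    simp [swap_apply_def, h1, h2, h3, h4, h5, h6, Ne.symm h1, Ne.symm h2, Ne.symm h3, Ne.symm h4,
      Ne.symm h5, Ne.symm h6]
  by_cases xb : x = b
  · subst xb
    simp [swap_apply_def, h1, h2, h3, h4, h5, h6, Ne.symm h1, Ne.symm h2, Ne.symm h3, Ne.symm h4,
      Ne.symm h5, Ne.symm h6]
  by_cases xc : x = c
  · subst xc
    simp [swap_apply_def, h1, h2, h3, h4, h5, h6, Ne.symm h1, Ne.symm h2, Ne.symm h3, Ne.symm h4,
      Ne.symm h5, Ne.symm h6]
  by_cases xd : x = d
  · subst xd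
    simp [swap_apply_def, h1, h2, h3, h4, h5, h6, Ne.symm h1, Ne.symm h2, Ne.symm h3, Ne.symm h4,
      Ne.symm h5, Ne.symm h6]
  simp [swap_apply_def, xa, xb, xc, xd]

section spin

variable {Γ : Type} [Group Γ] {π : Γ →* Perm α} {z : Γ}

lemma IsSpin.lift_eq (hs : IsSpin π z) {g h : Γ} (e : π g = π h) : g = h ∨ g = z * h := by
  have h1 : π (g * h⁻¹) = 1 := by rw [map_mul, map_inv, e, mul_inv_cancel]
  rcases (hs.ker _).mp h1 with h2 | h2
  · left; exact mul_inv_eq_one.mp h2
  · right; rw [← h2, inv_mul_cancel_right]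

lemma IsSpin.comm3 (hs : IsSpin π z) {g u : Γ} (hc : π g * π u = π u * π g)
    (h3 : π u * π u * π u = 1) : g * u = u * g := by
  have h1 : π (g * u) = π (u * g) := by rw [map_mul, map_mul, hc]
  rcases hs.lift_eq h1 with h2 | h2
  · exact h2
  · exfalso
    have h4 : ∀ x : Γ, x * (u * u * u) = (u * u * u) * x := by
      intro x
      have h5 : π (u * u * u) = 1 := by rw [map_mul, map_mul, h3]
      rcases (hs.ker _).mp h5 with h6 | h6
      · rw [h6, mul_one, one_mul]
      · rw [h6]; exact hs.central x
    have cg : MulAut.conj u g = z * g := by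
      rw [MulAut.conj_apply, mul_inv_eq_iff_eq_mul, mul_assoc, h2, ← mul_assoc, hs.sq, one_mul]
    have cz : MulAut.conj u z = z := by
      rw [MulAut.conj_apply, hs.central, mul_inv_cancel_right]
    have c3 : MulAut.conj (u * u * u) g = z * g := by
      rw [map_mul, map_mul, MulAut.mul_apply, MulAut.mul_apply, cg, map_mul, cz, cg, ← mul_assoc,
        hs.sq, one_mul, cg]
    have c4 : MulAut.conj (u * u * u) g = g := by
      rw [MulAut.conj_apply, ← h4, mul_inv_cancel_right]
    rw [c4] at c3
    exact hs.ne (mul_right_cancel ((one_mul g).trans c3)).symm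

lemma three_cube {a b c : α} (ab : a ≠ b) (ac : a ≠ c) (bc : b ≠ c) :
    (swap a b * swap a c) * (swap a b * swap a c) * (swap a b * swap a c) = 1 := by
  have h := isThreeCycle_swap_mul_swap_same ab ac bc
  have h1 := pow_orderOf_eq_one (swap a b * swap a c)
  rw [h.orderOf] at h1
  rw [← h1, pow_succ, pow_two]

/-- lifts of a double transposition and of a disjoint permutation commute -/
lemma IsSpin.comm_dt (hs : IsSpin π z) {a b c d : α} (h : Dist4 a b c d) {X V : Γ}
    (hX : π X = swap a b * swap c d) (ha : π V a = a) (hb : π V b = b) (hc : π V c = c)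
    (hd : π V d = d) : V * X = X * V := by
  obtain ⟨h1, h2, h3, h4, h5, h6⟩ := h
  have s1 : Perm.sign (swap a b * swap a c) = 1 := by
    rw [map_mul, sign_swap h1, sign_swap h2]; decide
  have s2 : Perm.sign (swap c a * swap c d) = 1 := by
    rw [map_mul, sign_swap h2.symm, sign_swap h6]; decide
  obtain ⟨u1, hu1⟩ := hs.surj _ s1
  obtain ⟨u2, hu2⟩ := hs.surj _ s2
  have c1 : V * u1 = u1 * V := by
    apply hs.comm3
    · rw [hu1, ← mul_assoc, comm_swap ha hb, mul_assoc, comm_swap ha hc, mul_assoc]
    · rw [hu1]; exact three_cube h1 h2 h4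
  have c2 : V * u2 = u2 * V := by
    apply hs.comm3
    · rw [hu2, ← mul_assoc, comm_swap hc ha, mul_assoc, comm_swap hc hd, mul_assoc]
    · rw [hu2]; exact three_cube h2.symm h6 h3
  have e : π X = π (u1 * u2) := by
    rw [hX, map_mul, hu1, hu2]
    have : swap a c * swap c a = 1 := by rw [swap_comm c a, swap_mul_self]
    calc swap a b * swap c d = swap a b * (swap a c * swap c a) * swap c d := by
          rw [this, mul_one]
      _ = _ := by simp only [mul_assoc]
  rcases hs.lift_eq e with h7 | h7
  · rw [h7, ← mul_assoc, c1, mul_assoc, c2, mul_assoc]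
  · rw [h7, ← mul_assoc, hs.central, mul_assoc, ← mul_assoc V, c1, mul_assoc u1, c2]
    simp only [mul_assoc]

/-- the quaternion relation -/
lemma IsSpin.quat (hs : IsSpin π z) {a b c d : α} (h : Dist4 a b c d) {X Y : Γ}
    (hX : π X = swap a b * swap c d) (hY : π Y = swap a c * swap b d) : Y * X = z * (X * Y) := by
  have hY' : Dist4 a c b d := ⟨h.2.1, h.1, h.2.2.1, h.2.2.2.1.symm, h.2.2.2.2.2, h.2.2.2.2.1⟩
  have hXY' : Dist4 a d b c := ⟨h.2.2.1, h.1, h.2.1, h.2.2.2.2.1.symm, h.2.2.2.2.2.symm, h.2.2.2.1⟩
  have x2 : X * X = z := hs.dt X ⟨a, b, c, d, h, hX⟩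
  have y2 : Y * Y = z := hs.dt Y ⟨a, c, b, d, hY', hY⟩
  have xy2 : (X * Y) * (X * Y) = z := hs.dt (X * Y) ⟨a, d, b, c, hXY', by
    rw [map_mul, hX, hY, klein h]⟩
  -- `X Y X Y = z`, multiply by `X` on the left and by `Y` on the right
  have e1 : X * ((X * Y) * (X * Y)) * Y = z * (Y * X) * z := by
    calc X * ((X * Y) * (X * Y)) * Y = (X * X) * (Y * X) * (Y * Y) := by simp only [mul_assoc]
      _ = z * (Y * X) * z := by rw [x2, y2]
  rw [xy2] at e1
  have e2 : X * z * Y = z * (X * Y) := by rw [hs.central]; simp only [mul_assoc]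
  rw [e2, mul_assoc z (Y * X) z, hs.central (Y * X)] at e1
  have e3 : X * Y = z * (Y * X) := mul_left_cancel e1
  rw [e3, ← mul_assoc, hs.sq, one_mul]

/-- squares of lifts -/
lemma IsSpin.sq_dbl (hs : IsSpin π z) {q : ℕ} {v : Perm α} (h : Dbl q v) :
    ∀ g : Γ, π g = v → g * g = z ^ q := by
  induction h with
  | one =>
    intro g hg
    rcases (hs.ker g).mp hg with h | h
    · rw [h]; simp
    · rw [h, hs.sq]; simp
  | @step q v a b c d h hv ha hb hc hd ih =>
    intro g hg
    obtain ⟨X, hX⟩ := hs.surj (swap a b * swap c d) (isDT_sign ⟨a, b, c, d, h, rfl⟩)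
    obtain ⟨V, hV⟩ := hs.surj v hv.sign
    have hc1 : V * X = X * V := hs.comm_dt h hX (by rw [hV, ha]) (by rw [hV, hb])
      (by rw [hV, hc]) (by rw [hV, hd])
    have x2 : X * X = z := hs.dt X ⟨a, b, c, d, h, hX⟩
    have v2 := ih V hV
    have e : π g = π (X * V) := by rw [hg, map_mul, hX, hV]
    have h2 : (X * V) * (X * V) = z ^ (q + 1) := by
      calc (X * V) * (X * V) = X * (V * X) * V := by simp only [mul_assoc]
        _ = X * X * (V * V) := by rw [hc1]; simp only [mul_assoc]
        _ = z ^ (q + 1) := by rw [x2, v2, pow_succ']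
    rcases hs.lift_eq e with h3 | h3
    · rw [h3, h2]
    · rw [h3]
      calc z * (X * V) * (z * (X * V)) = z * ((X * V) * z) * (X * V) := by simp only [mul_assoc]
        _ = z * z * ((X * V) * (X * V)) := by rw [hs.central]; simp only [mul_assoc]
        _ = _ := by rw [hs.sq, one_mul, h2]

/-- a lift of a nontrivial product is conjugate to its product with `z` -/
lemma IsSpin.conj_dbl (hs : IsSpin π z) {q : ℕ} {v : Perm α} (h : Dbl q v) (hq : q ≠ 0) :
    ∀ g : Γ, π g = v → ∃ y : Γ, y * g * y⁻¹ = g * z := by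
  cases h with
  | one => exact absurd rfl hq
  | @step q v a b c d h hv ha hb hc hd =>
    intro g hg
    obtain ⟨X, hX⟩ := hs.surj (swap a b * swap c d) (isDT_sign ⟨a, b, c, d, h, rfl⟩)
    obtain ⟨V, hV⟩ := hs.surj v hv.sign
    have hY' : Dist4 a c b d := ⟨h.2.1, h.1, h.2.2.1, h.2.2.2.1.symm, h.2.2.2.2.2, h.2.2.2.2.1⟩
    obtain ⟨Y, hY⟩ := hs.surj (swap a c * swap b d) (isDT_sign ⟨a, c, b, d, hY', rfl⟩)
    have hc1 : V * Y = Y * V := hs.comm_dt hY' hY (by rw [hV, ha]) (by rw [hV, hc])
      (by rw [hV, hb]) (by rw [hV, hd])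
    have hq1 := hs.quat h hX hY
    refine ⟨Y, ?_⟩
    rw [mul_inv_eq_iff_eq_mul]
    have e : π g = π (X * V) := by rw [hg, map_mul, hX, hV]
    have h2 : Y * (X * V) = z * (X * V) * Y := by
      calc Y * (X * V) = (Y * X) * V := by simp only [mul_assoc]
        _ = z * (X * (Y * V)) := by rw [hq1]; simp only [mul_assoc]
        _ = z * (X * V) * Y := by rw [← hc1]; simp only [mul_assoc]
    rcases hs.lift_eq e with h3 | h3
    · rw [h3, h2, hs.central]
    · rw [h3]
      calc Y * (z * (X * V)) = (Y * z) * (X * V) := by simp only [mul_assoc]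
        _ = z * (Y * (X * V)) := by rw [hs.central]; simp only [mul_assoc]
        _ = z * (z * (X * V) * Y) := by rw [h2]
        _ = z * (X * V) * z * Y := by
            rw [mul_assoc z (X * V) z, hs.central (X * V)]
            simp only [mul_assoc]

end spin

/-- involutions with `4 q` moved points -/
lemma dbl_of_support : ∀ (q : ℕ) (v : Perm α), v * v = 1 → v.support.card = 4 * q → Dbl q v := by
  intro q
  induction q with
  | zero =>
    intro v hv hc
    have h1 : v.support = ∅ := Finset.card_eq_zero.mp (by omega)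
    rw [support_eq_empty_iff.mp h1]
    exact Dbl.one
  | succ q ih =>
    intro v hv hc
    have hvv : ∀ x, v (v x) = x := fun x => by
      rw [← Perm.mul_apply, hv, Perm.one_apply]
    have hpos : 0 < v.support.card := by omega
    obtain ⟨a, ha⟩ := Finset.card_pos.mp hpos
    have hab : v a ≠ a := mem_support.mp ha
    have hva : v a ∈ v.support := by
      rw [mem_support, hvv]; exact hab.symm
    have h2 : 0 < ((v.support.erase a).erase (v a)).card := by
      rw [Finset.card_erase_of_mem (Finset.mem_erase.mpr ⟨hab, hva⟩), Finset.card_erase_of_mem ha]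
      omega
    obtain ⟨c, hc2⟩ := Finset.card_pos.mp h2
    have hcb : c ≠ v a := (Finset.mem_erase.mp hc2).1
    have hca : c ≠ a := (Finset.mem_erase.mp (Finset.mem_erase.mp hc2).2).1
    have hcs : c ∈ v.support := (Finset.mem_erase.mp (Finset.mem_erase.mp hc2).2).2
    have hcd : v c ≠ c := mem_support.mp hcs
    have hda : v c ≠ a := by
      intro h
      apply hcb
      rw [← h, hvv]
    have hdb : v c ≠ v a := fun h => hca (v.injective h)
    have h4 : Dist4 a (v a) c (v c) := ⟨hab.symm, hca.symm, hda.symm, hcb.symm, hdb.symm, hcd.symm⟩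
    set w : Perm α := swap a (v a) * swap c (v c) * v with hw
    have hwa : w a = a := by
      rw [hw]
      simp only [Perm.mul_apply]
      rw [swap_apply_of_ne_of_ne hcb.symm hdb.symm, swap_apply_right]
    have hwb : w (v a) = v a := by
      rw [hw]
      simp only [Perm.mul_apply]
      rw [hvv, swap_apply_of_ne_of_ne hca.symm hda.symm, swap_apply_left]
    have hwc : w c = c := by
      rw [hw]
      simp only [Perm.mul_apply]
      rw [swap_apply_right, swap_apply_of_ne_of_ne hca hcb]
    have hwd : w (v c) = v c := by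
      rw [hw]
      simp only [Perm.mul_apply]
      rw [hvv, swap_apply_left, swap_apply_of_ne_of_ne hda hdb]
    have hwo : ∀ x, x ≠ a → x ≠ v a → x ≠ c → x ≠ v c → w x = v x := by
      intro x h1 h2 h3 h4
      rw [hw]
      simp only [Perm.mul_apply]
      rw [swap_apply_of_ne_of_ne (x := v x), swap_apply_of_ne_of_ne]
      · intro h; apply h2; rw [← h, hvv]
      · intro h; exact h1 (v.injective h)
      · intro h; apply h4; rw [← h, hvv]
      · intro h; exact h3 (v.injective h)
    have hww : w * w = 1 := by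
      ext x
      rw [Perm.mul_apply, Perm.one_apply]
      by_cases x1 : x = a
      · rw [x1, hwa, hwa]
      by_cases x2 : x = v a
      · rw [x2, hwb, hwb]
      by_cases x3 : x = c
      · rw [x3, hwc, hwc]
      by_cases x4 : x = v c
      · rw [x4, hwd, hwd]
      rw [hwo x x1 x2 x3 x4, hwo, hvv]
      · intro h; apply x2; rw [← h, hvv]
      · intro h; exact x1 (v.injective h)
      · intro h; apply x4; rw [← h, hvv]
      · intro h; exact x3 (v.injective h)
    have hsupp : w.support = (((v.support.erase a).erase (v a)).erase c).erase (v c) := by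
      ext x
      simp only [mem_support, Finset.mem_erase]
      constructor
      · intro h
        have x1 : x ≠ a := by rintro rfl; exact h hwa
        have x2 : x ≠ v a := by rintro rfl; exact h hwb
        have x3 : x ≠ c := by rintro rfl; exact h hwc
        have x4 : x ≠ v c := by rintro rfl; exact h hwd
        rw [hwo x x1 x2 x3 x4] at h
        exact ⟨x4, x3, x2, x1, h⟩
      · rintro ⟨x4, x3, x2, x1, h⟩
        rw [hwo x x1 x2 x3 x4]; exact h
    have hcard : w.support.card = 4 * q := by
      rw [hsupp, Finset.card_erase_of_mem, Finset.card_erase_of_mem hc2,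
        Finset.card_erase_of_mem (Finset.mem_erase.mpr ⟨hab, hva⟩), Finset.card_erase_of_mem ha]
      · omega
      · simp only [Finset.mem_erase, mem_support]
        refine ⟨hcd, hdb, hda, ?_⟩
        rw [hvv]; exact hcd.symm
    have hfin := Dbl.step a (v a) c (v c) h4 (ih w hww hcard) hwa hwb hwc hwd
    have e : swap a (v a) * swap c (v c) * w = v := by
      rw [hw]
      have hcomm : swap a (v a) * swap c (v c) = swap c (v c) * swap a (v a) := by
        rw [comm_swap (v := swap a (v a)) (swap_apply_of_ne_of_ne hca hcb)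
          (swap_apply_of_ne_of_ne hda hdb)]
      calc swap a (v a) * swap c (v c) * (swap a (v a) * swap c (v c) * v)
          = (swap a (v a) * swap c (v c)) * (swap c (v c) * swap a (v a)) * v := by
            rw [← hcomm]; simp only [mul_assoc]
        _ = swap a (v a) * (swap c (v c) * swap c (v c)) * swap a (v a) * v := by
            simp only [mul_assoc]
        _ = v := by rw [swap_mul_self, mul_one, swap_mul_self, one_mul]
    rwa [e] at hfin

end Pool.Agent.X21.Sp
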