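import Mathlib
import Pool.Agent.X21.Sp.S1

/-!
# Double covers of the alternating groups: elementary abelian subgroups
-/

set_option autoImplicit false
set_option linter.unusedSectionVars false

namespace Pool.Agent.X21.Sp

open Equiv Equiv.Perm

/-- a space with eight elements -/
abbrev R8 : Type := Fin 3 → ZMod 2

lemma R8_add (u : R8) : u + u = 0 := by
  funext i
  exact CharTwo.add_self_eq_zero _

lemma card_R8 : Fintype.card R8 = 8 := by
  simp [R8]

/-- translations of the blocks -/
def tr (l : ℕ) : Multiplicative (Fin l → R8) →* Perm (Fin l × R8) where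
  toFun w :=
    { toFun := fun x => (x.1, x.2 + w.toAdd x.1)
      invFun := fun x => (x.1, x.2 + w.toAdd x.1)
      left_inv := fun x => by
        ext1
        · rfl
        · change x.2 + _ + _ = x.2
          rw [add_assoc, R8_add, add_zero]
      right_inv := fun x => by
        ext1
        · rfl
        · change x.2 + _ + _ = x.2
          rw [add_assoc, R8_add, add_zero] }
  map_one' := by
    ext x
    · rfl
    · simp
  map_mul' v w := by
    ext x
    · rfl
    · simp only [toAdd_mul, Pi.add_apply, coe_fn_mk, Perm.mul_apply]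
      ring

lemma tr_apply (l : ℕ) (w : Multiplicative (Fin l → R8)) (x : Fin l × R8) :
    tr l w x = (x.1, x.2 + w.toAdd x.1) := rfl

lemma tr_sq (l : ℕ) (w : Multiplicative (Fin l → R8)) : tr l w * tr l w = 1 := by
  ext1 x
  rw [Perm.mul_apply, tr_apply, tr_apply]
  ext1
  · rfl
  · change x.2 + _ + _ = x.2
    rw [add_assoc, R8_add, add_zero]

lemma tr_support (l : ℕ) (w : Multiplicative (Fin l → R8)) :
    (tr l w).support.card = 4 * (2 * (Finset.univ.filter fun i => w.toAdd i ≠ 0).card) := by
  classical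
  have h : (tr l w).support = (Finset.univ.filter fun i => w.toAdd i ≠ 0) ×ˢ Finset.univ := by
    ext ⟨i, u⟩
    simp only [mem_support, tr_apply, ne_eq, Prod.mk.injEq, true_and, Finset.mem_product,
      Finset.mem_filter, Finset.mem_univ, and_true]
    rw [add_eq_left]
  rw [h, Finset.card_product, Finset.card_univ, card_R8]
  ring

variable {α : Type} [Fintype α] [DecidableEq α]

/-- the elementary abelian group -/
noncomputable def el {l : ℕ} (f : Fin l × R8 ↪ α) : Subgroup (Perm α) :=
  ((viaEmbeddingHom f).comp (tr l)).range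

lemma el_card {l : ℕ} (f : Fin l × R8 ↪ α) : Nat.card (el f) = 8 ^ l := by
  have hinj : Function.Injective ((viaEmbeddingHom f).comp (tr l)) := by
    refine (viaEmbeddingHom_injective f).comp ?_
    intro v w h
    apply Multiplicative.toAdd.injective
    funext i
    have h1 := congrArg (fun π : Perm (Fin l × R8) => (π (i, 0)).2) h
    simpa [tr_apply] using h1
  have h1 : Nat.card (el f) = Nat.card (Multiplicative (Fin l → R8)) :=
    (Nat.card_congr (MonoidHom.ofInjective hinj).toEquiv).symm
  rw [h1, Nat.card_eq_fintype_card, Fintype.card_multiplicative, Fintype.card_fun, card_R8,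
    Fintype.card_fin]

lemma el_dbl {l : ℕ} (f : Fin l × R8 ↪ α) {v : Perm α} (hv : v ∈ el f) :
    v = 1 ∨ ∃ q : ℕ, q ≠ 0 ∧ Dbl (2 * q) v := by
  obtain ⟨w, rfl⟩ := hv
  rw [MonoidHom.comp_apply]
  by_cases hw : (Finset.univ.filter fun i => w.toAdd i ≠ 0).card = 0
  · left
    have h1 : tr l w = 1 := by
      rw [← support_eq_empty_iff, ← Finset.card_eq_zero, tr_support, hw]
    rw [h1, map_one]
  · right
    refine ⟨_, hw, dbl_of_support _ _ ?_ ?_⟩
    · rw [← map_mul, tr_sq, map_one]
    · rw [viaEmbeddingHom_apply, viaEmbedding, ← tr_support]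
      convert card_support_extend_domain _ using 2

section spin

variable {Γ : Type} [Group Γ] [Finite Γ] {π : Γ →* Perm α} {z : Γ}

/-- the preimage of the elementary abelian group -/
noncomputable def pre (π : Γ →* Perm α) {l : ℕ} (f : Fin l × R8 ↪ α) : Subgroup Γ := (el f).comap π

lemma z_mem (hs : IsSpin π z) {l : ℕ} (f : Fin l × R8 ↪ α) : z ∈ pre π f := by
  change π z ∈ el f
  rw [(hs.ker z).mpr (Or.inr rfl)]
  exact one_mem _

lemma pre_sq (hs : IsSpin π z) {l : ℕ} (f : Fin l × R8 ↪ α) {b : Γ} (hb : b ∈ pre π f) :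
    b * b = 1 := by
  rcases el_dbl f (v := π b) hb with h | ⟨q, -, h⟩
  · rcases (hs.ker b).mp h with h1 | h1
    · rw [h1, mul_one]
    · rw [h1, hs.sq]
  · rw [hs.sq_dbl h b rfl, pow_mul, pow_two, hs.sq, one_pow]

lemma pre_conj (hs : IsSpin π z) {l : ℕ} (f : Fin l × R8 ↪ α) {b : Γ} (hb : b ∈ pre π f)
    (h1 : b ≠ 1) (hz : b ≠ z) : ∃ y : Γ, y * b * y⁻¹ = b * z := by
  rcases el_dbl f (v := π b) hb with h | ⟨q, hq, h⟩
  · rcases (hs.ker b).mp h with h2 | h2
    · exact absurd h2 h1
    · exact absurd h2 hz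
  · exact hs.conj_dbl h (by omega) b rfl

lemma pre_card (hs : IsSpin π z) {l : ℕ} (f : Fin l × R8 ↪ α) :
    Nat.card (pre π f) = 2 * 8 ^ l := by
  let ρ : pre π f →* el f := (π.comp (pre π f).subtype).codRestrict (el f) (fun b => b.2)
  have hρ : Function.Surjective ρ := by
    rintro ⟨v, hv⟩
    have hsg : Perm.sign v = 1 := by
      rcases el_dbl f hv with h | ⟨q, -, h⟩
      · rw [h, map_one]
      · exact h.sign
    obtain ⟨g, hg⟩ := hs.surj v hsg
    exact ⟨⟨g, by change π g ∈ el f; rw [hg]; exact hv⟩, Subtype.ext hg⟩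
  have h3 : Nat.card (pre π f) = Nat.card ρ.ker * Nat.card (el f) := by
    rw [← Nat.card_congr (QuotientGroup.quotientKerEquivOfSurjective ρ hρ).toEquiv, mul_comm]
    exact Subgroup.card_eq_card_quotient_mul_card_subgroup _
  have h4 : Nat.card ρ.ker = 2 := by
    rw [Nat.card_eq_two_iff]
    refine ⟨1, ⟨⟨z, z_mem hs f⟩, ?_⟩, ?_, ?_⟩
    · rw [MonoidHom.mem_ker]
      exact Subtype.ext ((hs.ker z).mpr (Or.inr rfl))
    · intro h
      apply hs.ne
      have h5 := congrArg (fun x : ρ.ker => ((x : pre π f) : Γ)) h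
      exact h5.symm
    · ext ⟨⟨b, hb⟩, hk⟩
      simp only [Set.mem_insert_iff, Set.mem_singleton_iff, Set.mem_univ, iff_true]
      rw [MonoidHom.mem_ker] at hk
      have h5 : π b = 1 := congrArg Subtype.val hk
      rcases (hs.ker b).mp h5 with h6 | h6
      · left; exact Subtype.ext (Subtype.ext h6)
      · right; exact Subtype.ext (Subtype.ext h6)
  rw [h3, h4, el_card]

end spin

/-- a quadratic character of a group of exponent two -/
lemma exists_quad {B : Type} [Group B] [Finite B] (h : ∀ b : B, b * b = 1) {z : B} (hz : z ≠ 1) :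
    ∃ φ : B →* ℂˣ, φ z ≠ 1 ∧ ∀ b, φ b * φ b = 1 := by
  let _ : CommGroup B :=
    { (inferInstance : Group B) with
      mul_comm := fun a b => by
        have h1 := h (a * b)
        have ha : a⁻¹ = a := inv_eq_of_mul_eq_one_left (h a)
        have hb : b⁻¹ = b := inv_eq_of_mul_eq_one_left (h b)
        have h2 : a * b = (a * b)⁻¹ := (inv_eq_of_mul_eq_one_left h1).symm
        rw [h2, mul_inv_rev, ha, hb] }
  obtain ⟨φ, hφ⟩ := CommGroup.exists_apply_ne_one_of_hasEnoughRootsOfUnity B ℂ hz
  exact ⟨φ, hφ, fun b => by rw [← map_mul, h, map_one]⟩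

end Pool.Agent.X21.Sp
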