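import Mathlib
import Pool.Agent.X21.Sp.S2
import Pool.Agent.X21.Ce.B3

/-!
# L-functions of characters which are nontrivial on a central involution
-/

set_option autoImplicit false
set_option linter.unusedSectionVars false

namespace Pool.Agent.X21.Sp

open Pool.Agent.H302R2 Pool.Agent.H302R5 Pool.Agent.H541R3.ART Pool.Agent.W446.AS Pool.Agent.X21.Sy
  Pool.Agent.X21.Qd Pool.Agent.X21.Ce
  Pool.Agent.TH820 Pool.Agent.W295.Cl Pool.Agent.W295.Sp Pool.Agent.H417R3.HB Equiv Equiv.Perm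

section gen

variable {G : Type} [Group G] [Finite G] {z : G}

/-- the multiplicity of a linear character which is nontrivial on `z` -/
lemma key_sum {θ : G → ℂ} (hθ : IsHeilbronn θ) (hz1 : z ≠ 1) (hz2 : z * z = 1)
    (B : Subgroup G) (hzB : z ∈ B) (φ : B →* ℂˣ)
    (hφ : φ ⟨z, hzB⟩ ≠ 1) (hB : ∀ b ∈ B, b ≠ 1 → b ≠ z → ∃ g : G, g * b * g⁻¹ = b * z) :
    ∑ᶠ b : B, θ b * (((φ b)⁻¹ : ℂˣ) : ℂ) = θ 1 - θ z := by
  classical
  have : Fintype B := Fintype.ofFinite B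
  rw [finsum_eq_sum_of_fintype]
  set ζ : B := ⟨z, hzB⟩ with hζ
  have hζ2 : ζ * ζ = 1 := Subtype.ext hz2
  have hφ2 : φ ζ * φ ζ = 1 := by rw [← map_mul, hζ2, map_one]
  have hφz : ((φ ζ : ℂˣ) : ℂ) = -1 := by
    have h1 : ((φ ζ : ℂˣ) : ℂ) * ((φ ζ : ℂˣ) : ℂ) = 1 := by
      rw [← Units.val_mul, hφ2, Units.val_one]
    have h2 : (((φ ζ : ℂˣ) : ℂ) - 1) * (((φ ζ : ℂˣ) : ℂ) + 1) = 0 := by linear_combination h1
    rcases mul_eq_zero.mp h2 with h3 | h3
    · exfalso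
      apply hφ
      apply Units.ext
      rw [Units.val_one]
      exact sub_eq_zero.mp h3
    · linear_combination h3
  have hinvz : (((φ ζ)⁻¹ : ℂˣ) : ℂ) = -1 := by
    rw [Units.val_inv_eq_inv_val, hφz]
    norm_num
  have h1 : ∑ b : B, θ b * (((φ b)⁻¹ : ℂˣ) : ℂ)
      = - ∑ b : B, θ ((b : G) * z) * (((φ b)⁻¹ : ℂˣ) : ℂ) := by
    rw [← Equiv.sum_comp (Equiv.mulRight ζ), ← Finset.sum_neg_distrib]
    refine Finset.sum_congr rfl fun b _ => ?_
    change θ ((b : G) * z) * (((φ (b * ζ))⁻¹ : ℂˣ) : ℂ) = _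
    rw [map_mul, mul_inv, Units.val_mul, hinvz]
    ring
  have h2 : 2 * ∑ b : B, θ b * (((φ b)⁻¹ : ℂˣ) : ℂ)
      = ∑ b : B, (θ b - θ ((b : G) * z)) * (((φ b)⁻¹ : ℂˣ) : ℂ) := by
    simp only [sub_mul, Finset.sum_sub_distrib]
    linear_combination h1
  have h3 : ∑ b : B, (θ b - θ ((b : G) * z)) * (((φ b)⁻¹ : ℂˣ) : ℂ) = 2 * (θ 1 - θ z) := by
    have hne : (1 : B) ≠ ζ := by
      intro h
      exact hz1 (congrArg Subtype.val h).symm
    rw [← Finset.sum_subset (Finset.subset_univ {1, ζ})]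
    · rw [Finset.sum_pair hne, map_one, inv_one, Units.val_one, hinvz]
      simp only [OneMemClass.coe_one, one_mul]
      change (θ 1 - θ z) * 1 + (θ z - θ (z * z)) * -1 = _
      rw [hz2]
      ring
    · intro b _ hb
      rw [Finset.mem_insert, Finset.mem_singleton, not_or] at hb
      obtain ⟨g, hg⟩ := hB b b.2 (fun h => hb.1 (Subtype.ext h)) (fun h => hb.2 (Subtype.ext h))
      rw [← hg, hθ.conj, sub_self, zero_mul]
  have h4 := h2.trans h3
  exact mul_left_cancel₀ two_ne_zero h4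

/-- characters which are nontrivial on the central involution `z` -/
theorem central_ext {s₀ : ℂ} (A : ArtinData G s₀) (hz1 : z ≠ 1) (hz2 : z * z = 1)
    (hzc : ∀ g : G, g * z = z * g) (B : Subgroup G) (hzB : z ∈ B) (φ : B →* ℂˣ)
    (hφ : φ ⟨z, hzB⟩ ≠ 1) (hB : ∀ b ∈ B, b ≠ 1 → b ≠ z → ∃ g : G, g * b * g⁻¹ = b * z) :
    ∃ r r₀ a : ℕ, meromorphicOrderAt (A.Lin ⊥ 1) s₀ = (r : WithTop ℤ) ∧
      meromorphicOrderAt (A.Lin (Subgroup.zpowers z) 1) s₀ = (r₀ : WithTop ℤ) ∧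
      meromorphicOrderAt (A.Lin B φ) s₀ = (a : WithTop ℤ) ∧
      ∑ᶠ b : B, (theta A.ord : G → ℂ) b * (((φ b)⁻¹ : ℂˣ) : ℂ) = (a : ℂ) * Nat.card B ∧
      2 * r = 2 * r₀ + a * Nat.card B ∧
      (a = 0 → (∀ χ ∈ Irr G, χ z ≠ χ 1 → meromorphicOrderAt (A.L χ) s₀ = 0) ∧
        ∀ U : Subgroup G,
          (∀ η ∈ Irr U, (∃ u : U, (u : G) = z ∧ η u ≠ η 1) → ∀ F : ℂ → ℂ,
            IsRel A U η F → meromorphicOrderAt F s₀ = 0) ∧
          meromorphicOrderAt (A.Lin U 1) s₀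
            = meromorphicOrderAt (A.Lin (U ⊔ Subgroup.zpowers z) 1) s₀) := by
  classical
  have : Fintype G := Fintype.ofFinite G
  have hθ := A.isHeilbronn
  set θ : G → ℂ := (theta A.ord : G → ℂ) with hθdef
  -- the order of the zeta function of `E`
  obtain ⟨r, hr⟩ := hθ.mult ⊥ 1
  obtain ⟨r₀, hr₀⟩ := hθ.mult (Subgroup.zpowers z) 1
  obtain ⟨a, ha⟩ := hθ.mult B φ
  have hr' := order_of_multQ A ⊥ 1 hr
  have hr₀' := order_of_multQ A (Subgroup.zpowers z) 1 hr₀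
  have ha' := order_of_multQ A B φ ha
  have h1 : θ 1 = r := A.theta_one hr'
  have hmem : ∀ g : G, g ∈ Subgroup.zpowers z ↔ g = 1 ∨ g = z := by
    intro g
    constructor
    · rintro ⟨k, rfl⟩
      have hz2' : z ^ (2 : ℤ) = 1 := by rw [zpow_ofNat, pow_two, hz2]
      rcases Int.even_or_odd' k with ⟨m, hm | hm⟩
      · left
        change z ^ k = 1
        rw [hm, zpow_mul, hz2', one_zpow]
      · right
        change z ^ k = z
        rw [hm, zpow_add, zpow_mul, hz2', one_zpow, one_mul, zpow_one]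
    · rintro (rfl | rfl)
      · exact one_mem _
      · exact Subgroup.mem_zpowers _
  have hcz : Nat.card (Subgroup.zpowers z) = 2 := by
    rw [Nat.card_zpowers]
    exact orderOf_eq_prime (by rw [pow_two, hz2]) hz1
  -- the order of the zeta function of the fixed field of `z`
  have h2 : θ 1 + θ z = 2 * (r₀ : ℂ) := by
    have : Fintype (Subgroup.zpowers z) := Fintype.ofFinite _
    rw [finsum_eq_sum_of_fintype, hcz] at hr₀
    have hne : (1 : Subgroup.zpowers z) ≠ ⟨z, Subgroup.mem_zpowers z⟩ := by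
      intro h
      exact hz1 (congrArg Subtype.val h).symm
    have huniv : (Finset.univ : Finset (Subgroup.zpowers z))
        = {1, ⟨z, Subgroup.mem_zpowers z⟩} := by
      ext ⟨g, hg⟩
      simp only [Finset.mem_univ, Finset.mem_insert, Finset.mem_singleton, true_iff]
      rcases (hmem g).mp hg with h | h
      · left; exact Subtype.ext h
      · right; exact Subtype.ext h
    rw [huniv, Finset.sum_pair hne] at hr₀
    simp only [MonoidHom.one_apply, inv_one, Units.val_one, mul_one, OneMemClass.coe_one] at hr₀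
    push_cast at hr₀
    linear_combination hr₀
  have h3 := key_sum hθ hz1 hz2 B hzB φ hφ hB
  rw [ha] at h3
  refine ⟨r, r₀, a, hr', hr₀', ha', ha, ?_, ?_⟩
  · have h4 : (2 * r : ℂ) = 2 * r₀ + a * Nat.card B := by
      linear_combination (-2 : ℂ) * h1 + h2 - h3
    exact_mod_cast h4
  · intro ha0
    have h4 : θ z = θ 1 := by
      rw [ha0] at h3
      push_cast at h3
      linear_combination h3
    have hker : ∀ n ∈ Subgroup.zpowers z, θ n = θ 1 := by
      intro n hn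
      rcases (hmem n).mp hn with h | h
      · rw [h]
      · rw [h, h4]
    have hNn : (Subgroup.zpowers z).Normal := by
      constructor
      intro n hn g
      rcases (hmem n).mp hn with h | h
      · rw [h, mul_one, mul_inv_cancel]; exact one_mem _
      · rw [h, hzc, mul_inv_cancel_right]; exact Subgroup.mem_zpowers z
    have hcos := const_of_kernel hθ (Subgroup.zpowers z) hker
    refine ⟨fun χ hχ hne => ?_, fun U => ⟨?_, ?_⟩⟩
    · have h5 := pair_zero hχ (Subgroup.zpowers z) hcos (Subgroup.mem_zpowers z) hne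
      have h6 := A.order_eq hχ (k := 0) (by rw [h5]; simp)
      exact_mod_cast h6
    · have : Fintype U := Fintype.ofFinite U
      rintro η hη ⟨u, hu, hu1⟩ F hF
      obtain ⟨k, hk, hk2⟩ := Pool.Agent.X21.Ce.exists_order A U hη
      have h5 := pair_zero (θ := fun x : U => θ x) hη ((Subgroup.zpowers z).subgroupOf U)
        (fun n hn x => by
          rw [Subgroup.mem_subgroupOf] at hn
          exact hcos _ hn _) (x := u) (by
            rw [Subgroup.mem_subgroupOf, hu]; exact Subgroup.mem_zpowers z) hu1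
      have h6 : (k : ℂ) * Nat.card U = 0 := by
        rw [← hk]; exact h5
      have hU : (Nat.card U : ℂ) ≠ 0 := by exact_mod_cast Nat.card_pos.ne'
      have h7 : k = 0 := by exact_mod_cast (mul_eq_zero.mp h6).resolve_right hU
      rw [hk2 F hF, h7]
      rfl
    · have hNr : meromorphicOrderAt (A.Lin (Subgroup.zpowers z) 1) s₀ = (r : WithTop ℤ) := by
        rw [hr₀']
        have h5 : (r₀ : ℂ) = r := by linear_combination (-1/2 : ℂ) * h2 + (1/2 : ℂ) * h4 + h1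
        have h6 : r₀ = r := by exact_mod_cast h5
        rw [h6]
      exact ded_sup A hr' (Subgroup.zpowers z) hNr U 1 (fun _ _ => rfl)

/-- at the central point the multiplicity of a quadratic character is even -/
lemma even_quad (C : CentralData G) (B : Subgroup G) (φ : B →* ℂˣ) (hq : ∀ b, φ b * φ b = 1)
    {a : ℕ} (ha : ∑ᶠ b : B, C.th b * (((φ b)⁻¹ : ℂˣ) : ℂ) = (a : ℂ) * Nat.card B) : Even a := by
  have hnu : nu (fun b : B => ((φ b : ℂˣ) : ℂ)) = 1 := by
    unfold nu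
    have h6 : ∀ b : B, ((φ (b * b) : ℂˣ) : ℂ) = 1 := by
      intro b
      rw [map_mul, hq b, Units.val_one]
    have : Fintype B := Fintype.ofFinite B
    rw [finsum_congr h6, finsum_eq_sum_of_fintype, Finset.sum_const, Finset.card_univ,
      nsmul_eq_mul, mul_one, ← Nat.card_eq_fintype_card]
    exact inv_mul_cancel₀ (by exact_mod_cast Nat.card_pos.ne')
  obtain ⟨k, hk, h6⟩ := C.cheil.ev B (fun b : B => ((φ b : ℂˣ) : ℂ)) (lin_irr φ) hnu
  have h7 : ∑ᶠ b : B, C.th b * (((φ b)⁻¹ : ℂˣ) : ℂ) = (k : ℂ) * Nat.card B := by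
    rw [← h6]
    refine finsum_congr fun e => ?_
    rw [map_inv]
  rw [ha] at h7
  have hB : (Nat.card B : ℂ) ≠ 0 := by exact_mod_cast Nat.card_pos.ne'
  have h8 := mul_right_cancel₀ hB h7
  have h9 : (a : ℤ) = k := by exact_mod_cast h8
  rw [← h9] at hk
  exact_mod_cast hk

/-- a group containing a double cover of the alternating group -/
theorem spin_setup {n : ℕ} (H : Subgroup G) (π : H →* Perm (Fin n)) (ζ : H) (hs : IsSpin π ζ)
    (hzc : ∀ g : G, g * ζ = ζ * g) :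
    ∃ (B : Subgroup G) (hzB : (ζ : G) ∈ B) (φ : B →* ℂˣ), Nat.card B = 2 * 8 ^ (n / 8) ∧
      φ ⟨ζ, hzB⟩ ≠ 1 ∧ (∀ b, φ b * φ b = 1) ∧
      ∀ b ∈ B, b ≠ 1 → b ≠ (ζ : G) → ∃ g : G, g * b * g⁻¹ = b * ζ := by
  classical
  have hcard : Fintype.card (Fin (n / 8) × R8) ≤ Fintype.card (Fin n) := by
    rw [Fintype.card_prod, card_R8, Fintype.card_fin, Fintype.card_fin]
    omega
  obtain ⟨f⟩ := Function.Embedding.nonempty_of_card_le hcard
  let B₀ : Subgroup H := pre π f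
  let B : Subgroup G := B₀.map H.subtype
  have hzB : (ζ : G) ∈ B := ⟨ζ, z_mem hs f, rfl⟩
  have hsq : ∀ b : B, b * b = 1 := by
    rintro ⟨_, b, hb, rfl⟩
    apply Subtype.ext
    have h1 := congrArg H.subtype (pre_sq hs f hb)
    rw [map_mul, map_one] at h1
    exact h1
  have hz1 : (⟨ζ, hzB⟩ : B) ≠ 1 := by
    intro h
    apply hs.ne
    have h1 : ((ζ : H) : G) = 1 := congrArg (fun x : B => (x : G)) h
    exact Subtype.ext h1
  obtain ⟨φ, hφ, hφ2⟩ := exists_quad hsq hz1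
  refine ⟨B, hzB, φ, ?_, hφ, hφ2, ?_⟩
  · rw [← pre_card hs f]
    exact Nat.card_congr (B₀.equivMapOfInjective H.subtype H.subtype_injective).symm.toEquiv
  · rintro _ ⟨b, hb, rfl⟩ h1 h2
    obtain ⟨y, hy⟩ := pre_conj hs f hb (fun h => h1 (by rw [h]; rfl)) (fun h => h2 (by rw [h]; rfl))
    exact ⟨y, congrArg Subtype.val hy⟩

/-- **Spin characters.** -/
theorem spin_main {s₀ : ℂ} (A : ArtinData G s₀) {n : ℕ} (H : Subgroup G) (π : H →* Perm (Fin n))
    (ζ : H) (hs : IsSpin π ζ) (hzc : ∀ g : G, g * ζ = ζ * g) :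
    ∃ r r₀ a : ℕ, meromorphicOrderAt (A.Lin ⊥ 1) s₀ = (r : WithTop ℤ) ∧
      meromorphicOrderAt (A.Lin (Subgroup.zpowers (ζ : G)) 1) s₀ = (r₀ : WithTop ℤ) ∧
      r = r₀ + a * 8 ^ (n / 8) ∧
      (a = 0 → (∀ χ ∈ Irr G, χ ζ ≠ χ 1 → meromorphicOrderAt (A.L χ) s₀ = 0) ∧
        ∀ U : Subgroup G,
          (∀ η ∈ Irr U, (∃ u : U, (u : G) = ζ ∧ η u ≠ η 1) → ∀ F : ℂ → ℂ,
            IsRel A U η F → meromorphicOrderAt F s₀ = 0) ∧
          meromorphicOrderAt (A.Lin U 1) s₀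
            = meromorphicOrderAt (A.Lin (U ⊔ Subgroup.zpowers (ζ : G)) 1) s₀) := by
  obtain ⟨B, hzB, φ, hc, h1, h2, h3⟩ := spin_setup H π ζ hs hzc
  obtain ⟨r, r₀, a, e1, e2, -, -, e3, e4⟩ := central_ext A (z := (ζ : G))
    (fun h => hs.ne (Subtype.ext h)) (congrArg Subtype.val hs.sq) hzc B hzB φ h1 h3
  refine ⟨r, r₀, a, e1, e2, ?_, e4⟩
  rw [hc] at e3
  have h5 : 2 * r = 2 * (r₀ + a * 8 ^ (n / 8)) := by rw [e3]; ring
  omega

/-- **Spin characters at the central point.** -/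
theorem spin_central (C : CentralData G) {n : ℕ} (H : Subgroup G) (π : H →* Perm (Fin n))
    (ζ : H) (hs : IsSpin π ζ) (hzc : ∀ g : G, g * ζ = ζ * g) :
    ∃ r r₀ a : ℕ, meromorphicOrderAt (C.Lin ⊥ 1) (1 / 2) = (r : WithTop ℤ) ∧
      meromorphicOrderAt (C.Lin (Subgroup.zpowers (ζ : G)) 1) (1 / 2) = (r₀ : WithTop ℤ) ∧
      r = r₀ + a * (2 * 8 ^ (n / 8)) ∧
      (a = 0 → (∀ χ ∈ Irr G, χ ζ ≠ χ 1 → meromorphicOrderAt (C.L χ) (1 / 2) = 0) ∧
        ∀ U : Subgroup G,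
          (∀ η ∈ Irr U, (∃ u : U, (u : G) = ζ ∧ η u ≠ η 1) → ∀ F : ℂ → ℂ,
            IsRel C.toArtinData U η F → meromorphicOrderAt F (1 / 2) = 0) ∧
          meromorphicOrderAt (C.Lin U 1) (1 / 2)
            = meromorphicOrderAt (C.Lin (U ⊔ Subgroup.zpowers (ζ : G)) 1) (1 / 2)) := by
  obtain ⟨B, hzB, φ, hc, h1, h2, h3⟩ := spin_setup H π ζ hs hzc
  obtain ⟨r, r₀, a, e1, e2, -, e5, e3, e4⟩ := central_ext C.toArtinData (z := (ζ : G))
    (fun h => hs.ne (Subtype.ext h)) (congrArg Subtype.val hs.sq) hzc B hzB φ h1 h3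
  obtain ⟨a', ha'⟩ := even_quad C B φ h2 e5
  refine ⟨r, r₀, a', e1, e2, ?_, fun h => e4 (by omega)⟩
  rw [hc, ha'] at e3
  have h5 : 2 * r = 2 * (r₀ + a' * (2 * 8 ^ (n / 8))) := by rw [e3]; ring
  omega

end gen

end Pool.Agent.X21.Sp
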