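import Mathlib
import Pool.Agent.X21.Sp.S3

/-!
# Statements for characters which are nontrivial on a central involution
-/

set_option autoImplicit false
set_option linter.unusedSectionVars false

namespace Pool.Agent.X21.Sp

open Pool.Agent.H302R2 Pool.Agent.H302R5 Pool.Agent.H541R3.ART Pool.Agent.W446.AS Pool.Agent.X21.Sy
  Pool.Agent.X21.Qd Pool.Agent.X21.Ce
  Pool.Agent.TH820 Pool.Agent.W295.Cl Pool.Agent.W295.Sp Pool.Agent.H417R3.HB Equiv Equiv.Perm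

/-- At the point `s₀` the functions `L χ` are holomorphic and not zero for all irreducible `χ` with
`χ z ≠ χ 1`, the L-functions over the fixed field of any subgroup `U ∋ z` are holomorphic and not
zero for all irreducible `η` of `U` with `η z ≠ η 1`, and the zeta functions of the fixed fields of
`U` and of `U ⟨z⟩` have the same order for all subgroups `U`. -/
def Clear {G : Type} [Group G] {s₀ : ℂ} (A : ArtinData G s₀) (z : G) : Prop :=
  (∀ χ ∈ Irr G, χ z ≠ χ 1 → meromorphicOrderAt (A.L χ) s₀ = 0) ∧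
  ∀ U : Subgroup G,
    (∀ η ∈ Irr U, (∃ u : U, (u : G) = z ∧ η u ≠ η 1) → ∀ F : ℂ → ℂ,
      IsRel A U η F → meromorphicOrderAt F s₀ = 0) ∧
    meromorphicOrderAt (A.Lin U 1) s₀
      = meromorphicOrderAt (A.Lin (U ⊔ Subgroup.zpowers z) 1) s₀

/-- The zeta functions of `E` and of the fixed field of `z` have orders `r`, `r₀` at the point with
`r = r₀ + a m` for some `a : ℕ`; and `Clear` holds if `a = 0`, that is, if `r < r₀ + m`. -/
def Gap {G : Type} [Group G] {s₀ : ℂ} (A : ArtinData G s₀) (z : G) (m : ℕ) : Prop :=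
  ∃ r r₀ a : ℕ, meromorphicOrderAt (A.Lin ⊥ 1) s₀ = (r : WithTop ℤ) ∧
    meromorphicOrderAt (A.Lin (Subgroup.zpowers z) 1) s₀ = (r₀ : WithTop ℤ) ∧
    r = r₀ + a * m ∧ (r < r₀ + m → Clear A z)

section

variable {G : Type} [Group G] [Finite G]

lemma gap_of_card {s₀ : ℂ} (A : ArtinData G s₀) {z : G} (hz1 : z ≠ 1) (hz2 : z * z = 1)
    (hzc : ∀ g : G, g * z = z * g) (B : Subgroup G) (hzB : z ∈ B) (φ : B →* ℂˣ)
    (hφ : φ ⟨z, hzB⟩ ≠ 1) (hB : ∀ b ∈ B, b ≠ 1 → b ≠ z → ∃ g : G, g * b * g⁻¹ = b * z) {m : ℕ}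
    (hm : Nat.card B = 2 * m) : Gap A z m := by
  obtain ⟨r, r₀, a, e1, e2, -, -, e5, e6⟩ := central_ext A hz1 hz2 hzc B hzB φ hφ hB
  have hm0 : 0 < m := by
    have : 0 < Nat.card B := Nat.card_pos
    omega
  rw [hm] at e5
  have h5 : 2 * r = 2 * (r₀ + a * m) := by rw [e5]; ring
  refine ⟨r, r₀, a, e1, e2, by omega, fun h => e6 ?_⟩
  have h6 : a * m < 1 * m := by omega
  have := lt_of_mul_lt_mul_right h6 (Nat.zero_le m)
  omega

lemma gap_of_quad (C : CentralData G) {z : G} (hz1 : z ≠ 1) (hz2 : z * z = 1)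
    (hzc : ∀ g : G, g * z = z * g) (B : Subgroup G) (hzB : z ∈ B) (φ : B →* ℂˣ)
    (hφ : φ ⟨z, hzB⟩ ≠ 1) (hq : ∀ b, φ b * φ b = 1)
    (hB : ∀ b ∈ B, b ≠ 1 → b ≠ z → ∃ g : G, g * b * g⁻¹ = b * z) :
    Gap C.toArtinData z (Nat.card B) := by
  obtain ⟨r, r₀, a, e1, e2, -, e4, e5, e6⟩ := central_ext C.toArtinData hz1 hz2 hzc B hzB φ hφ hB
  obtain ⟨b, rfl⟩ := even_quad C B φ hq e4
  have hm0 : 0 < Nat.card B := Nat.card_pos
  have h5 : 2 * r = 2 * (r₀ + b * Nat.card B) := by rw [e5]; ring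
  refine ⟨r, r₀, b, e1, e2, by omega, fun h => e6 ?_⟩
  have h6 : b * Nat.card B < 1 * Nat.card B := by omega
  have := lt_of_mul_lt_mul_right h6 (Nat.zero_le _)
  omega

theorem gap_spin {n : ℕ} (H : Subgroup G) (π : H →* Perm (Fin n)) (ζ : H) (hs : IsSpin π ζ)
    (hzc : ∀ g : G, g * ζ = ζ * g) :
    (∀ (s₀ : ℂ) (A : ArtinData G s₀), Gap A (ζ : G) (8 ^ (n / 8))) ∧
    ∀ C : CentralData G, Gap C.toArtinData (ζ : G) (2 * 8 ^ (n / 8)) := by
  obtain ⟨B, hzB, φ, hc, h1, h2, h3⟩ := spin_setup H π ζ hs hzc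
  have hz1 : (ζ : G) ≠ 1 := fun h => hs.ne (Subtype.ext h)
  have hz2 : (ζ : G) * ζ = 1 := congrArg Subtype.val hs.sq
  refine ⟨fun s₀ A => gap_of_card A hz1 hz2 hzc B hzB φ h1 h3 hc, fun C => ?_⟩
  rw [← hc]
  exact gap_of_quad C hz1 hz2 hzc B hzB φ h1 h2 h3

end

end Pool.Agent.X21.Sp
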